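import Pool.Agent.Q237.LD.Ldm
import Pool.Agent.Q120.RZ.Main

/-!
# Project LD, part 2: the Elliott–Halberstam conjecture for random sets and a Kakeya type statement

`LevAt S θ`: the level of distribution `θ` with a power saving. `Kak θ δ` is a statement about finite sets of integers (arithmetic
progressions in all directions need many points). Results, for `0 ≤ δ`, `0 < θ < 1`:
(1) EVERY random set `A` with relative entropy `≤ x ^ (δ + o(1))` satisfies `LevAt θ` almost surely, if and only if `Kak θ δ`;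
(2) `Kak θ δ` holds if `δ < 2 - 2 θ` or `δ < 1 - θ / 2`; so for `δ ≤ 1/2` all these random sets satisfy the full Elliott–Halberstam
conjecture with a power saving, and for `δ < 1` they have the level `1 - δ / 2 > 1 / 2`;
(3) `Kak θ δ` with `θ > r / (r + 1)` implies the Kakeya bound `m ^ ((r + 1) δ)` for sets in `ℤ ^ r` containing an arithmetic
progression of length `m` in every direction.

Each job is a definition `J_… : Prop`; a theorem `t_… : J_…` is to be proved. The proofs are complete in the docstrings.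
Proved and useful: `Q299.RZ.t_TAIL`, `Q299.RZ.t_KL`, `Pool.Agent.Q210.LD.{t_HOE, t_GCDS, t_SEC}` (and the divisor bound in their
proofs), `Pool.Agent.Q237.LD` (`sr, co, tri, co_tri, dev_sum, sum_dev`, and `sub_event`, `one_block`, `t_LDM` as pattern of the union
bound over sets of triples), `Pool.Agent.Q68.LD` (transfer, `t_LDA` as pattern), `Pool.Agent.Q237.LD.{Ptm,Delm}` (patterns for REM).
-/

set_option autoImplicit false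

namespace Pool.Agent.Q120.LD

open Finset MeasureTheory Filter Pool.Agent.Q120.ET Pool.Agent.Q120.GM Pool.Agent.Q120.GE Pool.Agent.Q237.LD
open scoped Topology

/-- The level of distribution `θ`, with a power saving (`a q` is any residue for each modulus, so this is the maximum). -/
def LevAt (S : Set ℕ) (θ : ℝ) : Prop := ∃ η C : ℝ, 0 < η ∧ ∀ (x : ℕ) (a : ℕ → ℕ), 1 ≤ x →
  ∑ q ∈ Icc 1 ⌊(x : ℝ) ^ θ⌋₊, dev S q (a q) x ≤ C * (x : ℝ) ^ (1 - η)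

open Classical in
/-- The moduli `q ≤ Q` such that `N` contains at least `l` elements of some class modulo `q`. -/
noncomputable def rich (N : Finset ℕ) (Q : ℕ) (l : ℝ) : Finset ℕ :=
  (Icc 1 Q).filter (fun q => ∃ a : ℕ, l ≤ ((N.filter (fun n => n % q = a % q)).card : ℝ))

/-- If `N ⊆ [1, x]` contains at least `x ^ (1 - η) / Q` elements of a class modulo `q` for at least `x ^ (-η) Q` moduli `q ≤ Q`, where
`Q ≤ x ^ θ`, then `N` has at least `x ^ (δ + η)` elements. -/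
def KakAt (η θ δ : ℝ) (x : ℕ) : Prop := ∀ (Q : ℕ) (N : Finset ℕ), 1 ≤ Q → (Q : ℝ) ≤ (x : ℝ) ^ θ → N ⊆ Icc 1 x →
  (x : ℝ) ^ (-η) * Q ≤ ((rich N Q ((x : ℝ) ^ (1 - η) / Q)).card : ℝ) → (x : ℝ) ^ (δ + η) ≤ (N.card : ℝ)

/-- The Kakeya type statement. -/
def Kak (θ δ : ℝ) : Prop := ∃ η : ℝ, 0 < η ∧ ∀ᶠ x : ℕ in atTop, KakAt η θ δ x

open Classical in
/-- A configuration showing a large deviation of `S`: a set `T` of triples (modulus, residue, sign) and a set `R` of integers to be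
ignored; `co T n` is the sum of the signs of the triples whose class contains `n`. -/
structure Conf (S : Set ℕ) (θ β δ : ℝ) (x Q : ℕ) (T : Finset (ℕ × ℕ × Bool)) (R : Finset ℕ) : Prop where
  hQ : 1 ≤ Q
  hQx : (Q : ℝ) ≤ (x : ℝ) ^ θ
  hT : ∀ t ∈ T, 1 ≤ t.1 ∧ t.1 ≤ Q ∧ t.2.1 < t.1
  hT0 : T.Nonempty
  hR : R ⊆ Icc 3 x
  sq : ∑ n ∈ Icc 3 x \ R, co T n ^ 2 ≤ 12 * ((T.card : ℝ) * (x / Q))
  dv : (x : ℝ) ^ (-(3 * β)) * ((T.card : ℝ) * (x / Q)) / 2 ≤ ∑ n ∈ Icc 3 x \ R, co T n * ((if n ∈ S then 1 else 0) - pc n)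
  rc : (R.card : ℝ) ≤ (x : ℝ) ^ (-(10 * β)) * ((T.card : ℝ) * (x / Q))
  big : (x : ℝ) ^ (δ + 20 * β) ≤ (T.card : ℝ) * (x / Q)

/-- **Job COL.** A colouring with few monochromatic pairs.
Proof. Induction on `J` (`Finset.induction_on`): for a new `q₀` choose the colour `c < m` for which `∑_{q ∈ J, f q = c} w q₀ q` is least, so
at most `(1 / m) ∑_{q ∈ J} w q₀ q`, and put `f q₀ = c`. The left side grows by `w q₀ q₀ + 2 ∑_{q ∈ J, f q = c} w q₀ q`, the right side by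
`w q₀ q₀ + (1 / m) (w q₀ q₀ + 2 ∑_{q ∈ J} w q₀ q)`. -/
def J_COL : Prop := ∀ (J : Finset ℕ) (w : ℕ → ℕ → ℝ) (m : ℕ), 1 ≤ m → (∀ q q', 0 ≤ w q q') → (∀ q q', w q q' = w q' q) →
  ∃ f : ℕ → ℕ, (∀ q, f q < m) ∧
    ∑ q ∈ J, ∑ q' ∈ J.filter (fun q' => f q' = f q), w q q' ≤ ∑ q ∈ J, w q q + 1 / m * ∑ q ∈ J, ∑ q' ∈ J, w q q'

/-- **Job CONF** (uses COL). The structure of a large deviation; deterministic.
Proof. Let `x` be large, `C_q = {n ∈ [3, x] : n ≡ a q (q)}`, `f n = 1_S n - pc n`. (i) The blocks `(Q / 2, Q]` (`Q / 2` in `ℕ`), `Q = ⌊x ^ θ⌋ / 2 ^ i`,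
partition `[1, ⌊x ^ θ⌋]`, there are at most `log₂ x + 1`, so for some `1 ≤ Q ≤ x ^ θ` the sum over `I = (Q / 2, Q]` is at least `x ^ (1 - 2 β)`. Let
`L = x / Q ≥ x ^ (1 - θ)`. For `q ∈ I` `dev ≤ |C_q| ≤ x / q + 1 ≤ 3 L`. `J = {q ∈ I : dev ≥ L x ^ (-3 β)}`: the other `q` contribute at most
`x ^ (1 - 3 β)`, so `|J| ≥ x ^ (1 - 2 β) / (2 * 3 L) ≥ Q x ^ (-3 β)`. (ii) `w n = #{q ∈ J : n ∈ C_q}`, `R_t = {n : w n > t}`, `Inc t = ∑_{n ∈ R_t} w n`;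
`Inc |J| = 0`, `Inc 0 = ∑_{q ∈ J} |C_q| ≥ |J| L x ^ (-3 β) ≥ x ^ (1 - 6 β)`. Let `t` be the least number with `Inc t ≤ x ^ (1 - 20 β)`; `t ≥ 1`.
(iii) `N = R_(t-1) = {n : w n ≥ t}`: `∑_{q ∈ J} |C_q ∩ N| = Inc (t - 1) > x ^ (1 - 20 β)`, so `|C_q ∩ N| ≥ x ^ (1 - 21 β) / Q` for at least
`x ^ (1 - 20 β) / (6 L) ≥ Q x ^ (-21 β)` of the `q ∈ J`; as `21 β ≤ η₀`, `KakAt` gives `|N| ≥ x ^ (δ + η₀)`; and `t |N| ≤ ∑ w n ≤ 3 L |J| ≤ 3 x`.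
So `x / t ≥ x ^ (δ + η₀) / 3`. (iv) `R = R_t`: `|R| ≤ Inc t / t ≤ x ^ (1 - 20 β) / t`. `J₁ = {q ∈ J : |C_q ∩ R| ≤ L x ^ (-4 β)}` has at least `|J| / 2`
elements as `|J \ J₁| L x ^ (-4 β) ≤ Inc t`. (v) COL with `m = t`, `w q q' = #((C_q ∩ C_q') \ R)`: with `w₁ n = #{q ∈ J₁ : n ∈ C_q}`
`∑_c ∑_{n ∉ R} #{q ∈ J₁ : f q = c, n ∈ C_q} ^ 2 ≤ ∑_{n ∉ R} (w₁ n + w₁ n ^ 2 / t) ≤ 2 ∑ w₁ n ≤ 6 L |J₁|` as `w₁ n ≤ t` off `R`. So
`∑_c (|J_c| - V_c / (12 L)) ≥ |J₁| / 2` (`J_c` the colour classes in `J₁`, `V_c` the inner sums) and some colour has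
`|J_c| - V_c / (12 L) ≥ |J₁| / (2 t)`: `V_c ≤ 12 L |J_c|`, `|J_c| ≥ |J₁| / (2 t)`. (vi) `T = tri J_c a s` with the signs of the deviations,
`|co T n| ≤ #{q ∈ J_c : n ∈ C_q}`. `dv`: `∑_{n ∉ R} co T n f n ≥ ∑_{q ∈ J_c} (dev - |C_q ∩ R|) ≥ |J_c| (L x ^ (-3 β) - L x ^ (-4 β))` (`|f| ≤ 1`).
`big`: `|J_c| L ≥ Q x ^ (-3 β) L / (4 t) = x ^ (1 - 3 β) / (4 t) ≥ x ^ (δ + η₀ - 3 β) / 12`. `rc`: `|R| ≤ x ^ (1 - 20 β) / t ≤ 4 x ^ (-17 β) |J_c| L`. -/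
def J_CONF : Prop := J_COL → ∀ θ δ η₀ β : ℝ, 0 < θ → θ < 1 → 0 ≤ δ → 0 < β → 100 * β ≤ η₀ → 100 * β ≤ 1 - θ →
  (∀ᶠ x : ℕ in atTop, KakAt η₀ θ δ x) → ∀ᶠ x : ℕ in atTop, ∀ (S : Set ℕ) (a : ℕ → ℕ),
    (x : ℝ) ^ (1 - β) ≤ ∑ q ∈ Icc 1 ⌊(x : ℝ) ^ θ⌋₊, dev S q (a q) x → ∃ (Q : ℕ) (T : Finset (ℕ × ℕ × Bool)) (R : Finset ℕ),
      Conf S θ β δ x Q T R

/-- **Job MODK** (uses HOE, COL, CONF). The level of distribution in the model, from the Kakeya type statement.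
Proof. `β = min η₀ (1 - θ) / 100`, `η = β`. For large `k` the event is contained in the union over `x ∈ [2 ^ k, 2 ^ (k + 1))`, `Q ≤ x`, `T`, `R` of
the events `Conf (A ω) …`; only `dv` depends on `ω`. Let `M = |T| ≥ 1`, `X = M x / Q`. HOE on `Icc 3 x \ R` with `c = co T`, `V = 12 X`,
`s = x ^ (-3 β) X / 2`: probability at most `exp (-(x ^ (-6 β) X / 96))`. The number of `T` with `|T| = M` is at most `(2 x ^ 2) ^ M`, the
number of `R` with `|R| = r` at most `x ^ r`, and `M log (2 x ^ 2) ≤ x ^ (-6 β) X / 400` as `X ≥ M x ^ (1 - θ) ≥ M x ^ (100 β)`,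
`r log x ≤ x ^ (-10 β) X log x ≤ x ^ (-6 β) X / 400`; `X ≥ x ^ (δ + 20 β)`. So together at most
`2 ^ (k + 1) * ∑_{Q, M, r ≤ 2 ^ (k + 1)} exp (-(x ^ (δ + 14 β) / 200)) ≤ exp (-2 ^ ((δ + β) k))` for large `k`. -/
def J_MODK : Prop := J_HOE → J_COL → J_CONF → ∀ θ δ : ℝ, 0 < θ → θ < 1 → 0 ≤ δ → Kak θ δ → ∃ η : ℝ, 0 < η ∧
  ∀ᶠ k : ℕ in atTop, ∀ (Ω : Type) [MeasurableSpace Ω] (μ : Measure Ω) [IsProbabilityMeasure μ] (A : Ω → Set ℕ), IsModel μ pc A →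
    μ.real {ω | ∃ (x : ℕ) (a : ℕ → ℕ), 2 ^ k ≤ x ∧ x < 2 ^ (k + 1) ∧
      (x : ℝ) ^ (1 - η) ≤ ∑ q ∈ Icc 1 ⌊(x : ℝ) ^ θ⌋₊, dev (A ω) q (a q) x} ≤ Real.exp (-(2 : ℝ) ^ ((δ + η) * k))

/-- **Job ALLK** (uses MODK). The level of distribution of all random sets of the class. Proof. As `t_LDA` (for one `θ`). -/
def J_ALLK : Prop := J_HOE → J_COL → J_CONF → J_MODK → ∀ θ δ : ℝ, 0 < θ → θ < 1 → 0 ≤ δ → Kak θ δ →
  Pool.Agent.Q120.RZ.All δ (fun S => LevAt S θ)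

/-- **Job KAKA** (uses GCDS, SEC). The second moment bound.
Proof. `η = min (1 - δ) (2 - 2 θ - δ) / 20`, `x` large; `J` the rich moduli, `l = x ^ (1 - η) / Q`. For some `i` the moduli in the block
`[2 ^ i, 2 ^ (i + 1))`, `J_i`, are at least `x ^ (-2 η) Q` (at most `log₂ x + 1` blocks), so `2 ^ i ≥ x ^ (-2 η) Q` and `2 ^ i ≤ Q`. With
`w n = #{q ∈ J_i : n ≡ a q (q)}`: `|J_i| l ≤ ∑_{n ∈ N} w n + 2 |J_i|` (the elements `1, 2` of `N`), so by Cauchy–Schwarz and SEC (`ε = η`, signs `1`)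
`(|J_i| l / 2) ^ 2 ≤ |N| (|J_i| ^ 2 + C x |J_i| (2 ^ i) ^ η / 2 ^ i)`, and `|J_i| ≤ 2 ^ i`: `|N| ≥ x ^ (2 - 6 η) / (4 (Q ^ 2 + C x ^ (1 + η)))`. -/
def J_KAKA : Prop := J_GCDS → J_SEC → ∀ θ δ : ℝ, 0 < θ → θ < 1 → 0 ≤ δ → δ < 1 → δ < 2 - 2 * θ → Kak θ δ

/-- **Job KAKB.** The bound by pairs.
Proof. `η = min (1 - θ / 2 - δ) (1 - θ) / 20`, `x` large, `l = x ^ (1 - η) / Q ≥ x ^ (1 - θ - η) ≥ 2`. For each of the at least `x ^ (-η) Q` rich `q`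
there are at least `l (l - 1) ≥ l ^ 2 / 2` ordered pairs `n ≠ n'` in `N` with `q ∣ n - n'`. Each pair belongs to at most
`#divisors |n - n'| ≤ C x ^ η` moduli (divisor bound). So `|N| ^ 2 C x ^ η ≥ x ^ (-η) Q l ^ 2 / 2 = x ^ (2 - 3 η) / (2 Q)`, and
`|N| ≥ x ^ (1 - θ / 2 - 2 η) / √(2 C) ≥ x ^ (δ + η)`. -/
def J_KAKB : Prop := ∀ θ δ : ℝ, 0 < θ → θ < 1 → 0 ≤ δ → δ < 1 - θ / 2 → Kak θ δ

/-- **Job KAKZ.** The Kakeya bound in `ℤ ^ r`: sets with an arithmetic progression of length `m` in each of the directions `[1, m] ^ r`.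
Proof. `φ v = ∑_{i < r} v i * m ^ i`. `N = φ '' {v ∈ E : ∀ i, 1 ≤ v i ≤ 2 m ^ 2}`, `N ⊆ [1, x]` with `x = 4 m ^ (r + 1)` (`m ≥ 2`),
`Q = ∑_{i < r} m ^ (i + 1) ≤ 2 m ^ r ≤ x ^ θ` for large `m`. The numbers `φ d`, `1 ≤ d i ≤ m`, are `m ^ r` different numbers in `[1, Q]` (`d` is
determined by `φ d` by induction on `r`: `d 0` by the residue modulo `m`). For `q = φ d` the elements `φ (a + j d) = φ a + j q`, `1 ≤ j < m`, of `N`
are `m - 1` different elements of one class modulo `q`, and `x ^ (1 - η) / Q ≤ m - 1` for large `m`, as `Q ≥ m ^ r`; also `m ^ r ≥ Q / 2 ≥ x ^ (-η) Q`.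
So `|E| ≥ |N| ≥ x ^ (δ + η) ≥ m ^ ((r + 1) δ)`. -/
def J_KAKZ : Prop := ∀ (r : ℕ) (θ δ : ℝ), 1 ≤ r → (r : ℝ) / (r + 1) < θ → 0 ≤ δ → Kak θ δ →
  ∀ᶠ m : ℕ in atTop, ∀ E : Finset (Fin r → ℕ),
    (∀ d : Fin r → ℕ, (∀ i, 1 ≤ d i ∧ d i ≤ m) → ∃ a : Fin r → ℕ, (∀ i, a i ≤ m ^ 2) ∧ ∀ j : ℕ, j < m → (fun i => a i + j * d i) ∈ E) →
      (m : ℝ) ^ ((r + 1) * δ) ≤ (E.card : ℝ)

/-- The set `W` is sparse, but contains many elements of a class for many moduli. -/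
def Sparse (W : Set ℕ) (δ : ℝ) : Prop := ∀ ε : ℝ, 0 < ε → ∀ᶠ k : ℕ in atTop,
  (Pool.Agent.Q120.RZ.num' W (low (k + 1)) : ℝ) ≤ (2 : ℝ) ^ ((δ + ε) * k)

/-- **Job NEG** (uses RZ.TAIL, RZ.KL). If the Kakeya type statement fails, some random set of the class does not have the level `θ`.
Proof. SEL (pasting the counterexamples; deterministic): for all `η > 0` and `X` there are `x ≥ X`, `Q ≤ x ^ θ` and `N ⊆ [1, x]`, `|N| < x ^ (δ + η)`, as in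
`KakAt`. Choose (recursively) for `i = 1, 2, …` such `x_i, Q_i, N_i` with `η_i = (1 - θ) / (10 i)`, `x_i ≥ i` and `x_i ^ (1 - 3 η_i) ≥ 2 ^ (x_(i-1)) `.
`W = ⋃ N_i ∩ [y_i, x_i]`, `y_i = x_i ^ (1 - 3 η_i)`. Then `W` is `Sparse`, but contains many elements of a class modulo `q` for many `q ≤ Q_i`. REM: let
`A` be a model with the probabilities `(1 - d n) * pc n`, `d` the indicator of `W`. By KL the relative entropy on `low (k + 1)` is at most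
`12 num' W (low (k + 1))`. By TAIL almost surely, for every `ε > 0` and all large `x`, for all `q ≤ x` and `a`,
`cntA (A ω) q a x ≤ ∑_{n ∈ [3, x], n ≡ a (q)} (1 - d n) pc n + x ^ ε (√(x / q) + 1)`, so the level `θ` fails at the `x_i`. -/
def J_NEG : Prop := Pool.Agent.Q120.RZ.J_TAIL → Pool.Agent.Q120.RZ.J_KL → ∀ θ δ : ℝ, 0 < θ → θ < 1 → 0 ≤ δ → ¬ Kak θ δ →
  ∃ (Ω : Type) (_ : MeasurableSpace Ω) (μ : Measure Ω) (_ : IsProbabilityMeasure μ) (A : Ω → Set ℕ),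
    IsRandomSet A ∧ Pool.Agent.Q120.RZ.Info μ A δ ∧ ∀ᵐ ω ∂μ, ¬ LevAt (A ω) θ

end Pool.Agent.Q120.LD
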