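import Pool.Agent.Q120.LD.Main
import Pool.Agent.Q120.LD.Kak

/-!
# Project LD, part 2: assembly
-/

set_option autoImplicit false

namespace Pool.Agent.Q120.LD

open Finset MeasureTheory Filter Pool.Agent.Q120.ET Pool.Agent.Q120.GM Pool.Agent.Q120.GE
open scoped Topology

/-- The jobs of part 2. -/
structure Jobs2 : Prop where
  tail : Pool.Agent.Q120.RZ.J_TAIL
  kl : Pool.Agent.Q120.RZ.J_KL
  hoe : J_HOE
  gcds : J_GCDS
  sec : J_SEC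
  ptm : J_PTM
  pta : J_PTA
  delm : J_DELM
  col : J_COL
  conf : J_CONF
  modk : J_MODK
  allk : J_ALLK
  kaka : J_KAKA
  kakb : J_KAKB
  kakz : J_KAKZ
  neg : J_NEG

theorem not_all' {δ : ℝ} {Q : Set ℕ → Prop} {Ω : Type} [MeasurableSpace Ω] {μ : Measure Ω} [IsProbabilityMeasure μ] {A : Ω → Set ℕ}
    (hA : IsRandomSet A) (hI : Pool.Agent.Q120.RZ.Info μ A δ) (h : ∀ᵐ ω ∂μ, ¬ Q (A ω)) : ¬ Pool.Agent.Q120.RZ.All δ Q := by
  intro h2
  have h5 : ∀ᵐ ω ∂μ, False := by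
    filter_upwards [h, h2 Ω μ A hA hI] with ω h6 h7
    exact h6 h7
  exact (Filter.eventually_false_iff_eq_bot.1 h5 ▸ (inferInstance : (ae μ).NeBot)).ne rfl

/-- The level of distribution for all random sets of the class, and the Kakeya type statement. -/
theorem lev_iff (J : Jobs2) {θ δ : ℝ} (h0 : 0 < θ) (h1 : θ < 1) (h2 : 0 ≤ δ) :
    Pool.Agent.Q120.RZ.All δ (fun S => LevAt S θ) ↔ Kak θ δ := by
  refine ⟨fun h => ?_, fun h => J.allk J.hoe J.col J.conf J.modk θ δ h0 h1 h2 h⟩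
  by_contra hcon
  obtain ⟨Ω, hΩ, μ, hμ, A, hA, hI, hae⟩ := J.neg J.tail J.kl θ δ h0 h1 h2 hcon
  exact not_all' hA hI hae h

theorem levAt_mono {S : Set ℕ} {θ θ' : ℝ} (h : LevAt S θ) (hθ : θ' ≤ θ) : ∃ η C : ℝ, 0 < η ∧ ∀ (x : ℕ) (a : ℕ → ℕ), 1 ≤ x →
    ∑ q ∈ Icc 1 ⌊(x : ℝ) ^ θ'⌋₊, dev S q (a q) x ≤ C * (x : ℝ) ^ (1 - η) := by
  obtain ⟨η, C, hη, h1⟩ := h
  refine ⟨η, C, hη, fun x a hx => le_trans ?_ (h1 x a hx)⟩
  refine sum_le_sum_of_subset_of_nonneg ?_ (fun _ _ _ => abs_nonneg _)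
  refine Icc_subset_Icc le_rfl (Nat.floor_mono ?_)
  exact Real.rpow_le_rpow_of_exponent_le (by exact_mod_cast hx) hθ

theorem level_of_kak (J : Jobs2) {θ δ : ℝ} (h0 : 0 < θ) (h1 : θ ≤ 1) (h2 : 0 ≤ δ)
    (h : ∀ θ' : ℝ, 0 < θ' → θ' < θ → Kak θ' δ) : Pool.Agent.Q120.RZ.All δ (fun S => Level S θ) := by
  intro Ω _ μ _ A hA hI
  have hj : ∀ j : ℕ, ∀ᵐ ω ∂μ, LevAt (A ω) (θ - θ / ((j : ℝ) + 2)) := by
    intro j
    have hj0 : (0 : ℝ) < θ / ((j : ℝ) + 2) := by positivity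
    have hj1 : θ / ((j : ℝ) + 2) < θ := by
      rw [div_lt_iff₀ (by positivity)]
      nlinarith [(Nat.cast_nonneg j : (0 : ℝ) ≤ j)]
    exact (lev_iff J (by linarith) (by linarith) h2).2 (h _ (by linarith) (by linarith)) Ω μ A hA hI
  filter_upwards [ae_all_iff.2 hj] with ω hω θ' hθ'
  obtain ⟨j, hj⟩ := exists_nat_gt (θ / (θ - θ'))
  have hd : 0 < θ - θ' := by linarith
  have h3 : θ / ((j : ℝ) + 2) ≤ θ - θ' := by
    rw [div_lt_iff₀ hd] at hj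
    rw [div_le_iff₀ (by positivity)]
    nlinarith
  exact levAt_mono (hω j) (by linarith)

/-- The level of distribution proved for all random sets of the class. -/
noncomputable def lvl (δ : ℝ) : ℝ := max (min 1 (2 - 2 * δ)) (1 - δ / 2)

theorem kak_of_lt (J : Jobs2) {θ δ : ℝ} (h0 : 0 < θ) (h1 : 0 ≤ δ) (h2 : δ < 1) (h : θ < lvl δ) : Kak θ δ := by
  unfold lvl at h
  rcases lt_max_iff.1 h with h3 | h3
  · have h4 := lt_min_iff.1 h3
    exact J.kakb θ δ h0 h4.1 h1 (by linarith [h4.2])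
  · exact J.kaka J.gcds J.sec θ δ h0 (by linarith) h1 h2 (by linarith)

theorem lvl_pos {δ : ℝ} (h2 : δ < 1) : 1 / 2 < lvl δ := by
  unfold lvl
  exact lt_of_lt_of_le (by linarith) (le_max_right _ _)

theorem lvl_le {δ : ℝ} (h1 : 0 ≤ δ) : lvl δ ≤ 1 := by
  unfold lvl
  exact max_le (min_le_left _ _) (by linarith)

theorem level (J : Jobs2) {δ : ℝ} (h1 : 0 ≤ δ) (h2 : δ < 1) : Pool.Agent.Q120.RZ.All δ (fun S => Level S (lvl δ)) :=
  level_of_kak J (by linarith [lvl_pos h2]) (lvl_le h1) h1 (fun _ h3 h4 => kak_of_lt J h3 h1 h2 h4)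

end Pool.Agent.Q120.LD
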