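import Pool.Agent.Q120.LD.Stm
import Pool.Agent.Q120.CL.C6

/-!
# Project LD, assembly
-/

set_option autoImplicit false

namespace Pool.Agent.Q120.LD

open Finset MeasureTheory Filter Pool.Agent.Q120.ET Pool.Agent.Q120.GM Pool.Agent.Q120.GE
open scoped Topology

/-- Asymptotics with a power saving, uniformly in all progressions to moduli `q ≤ x ^ θ'`, for all `θ' < θ`. -/
def Unif (S : Set ℕ) (θ : ℝ) : Prop := ∀ θ' : ℝ, 0 < θ' → θ' < θ → ∃ η C : ℝ, 0 < η ∧ ∀ x q a : ℕ, 1 ≤ q →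
  (q : ℝ) ≤ (x : ℝ) ^ θ' → dev S q a x ≤ C * ((x : ℝ) ^ (1 - η) / q)

theorem unif_of_point {S : Set ℕ} {δ θ : ℝ} (hδ : 0 ≤ δ) (h : Point S δ) (hθ : θ ≤ 1 - δ) : Unif S θ := by
  intro θ' h0 h1
  obtain ⟨g, hg⟩ : ∃ g : ℝ, g = 1 - δ - θ' := ⟨_, rfl⟩
  have hg0 : 0 < g := by rw [hg]; linarith
  obtain ⟨C, hC⟩ := h (g / 4) (by linarith)
  refine ⟨g / 4, 2 * max C 0, by linarith, fun x q a hq hqx => ?_⟩
  have hq0 : (0 : ℝ) < q := by exact_mod_cast hq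
  have hx : 1 ≤ x := by
    by_contra hcon
    have : x = 0 := by omega
    rw [this, Nat.cast_zero, Real.zero_rpow h0.ne'] at hqx
    linarith
  have hx1 : (1 : ℝ) ≤ x := by exact_mod_cast hx
  have hx0 : (0 : ℝ) < x := by linarith
  have hqx' : q ≤ x := by
    have h2 : (x : ℝ) ^ θ' ≤ (x : ℝ) ^ (1 : ℝ) := Real.rpow_le_rpow_of_exponent_le hx1 (by linarith)
    rw [Real.rpow_one] at h2
    exact_mod_cast hqx.trans h2
  have h2 := hC x q a hq hqx'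
  have e1 : √((x : ℝ) ^ (1 + δ) / q) ≤ (x : ℝ) ^ (1 - g / 2) / q := by
    rw [Real.sqrt_le_left (by positivity), div_pow, ← Real.rpow_natCast ((x : ℝ) ^ (1 - g / 2)), ← Real.rpow_mul hx0.le,
      div_le_div_iff₀ hq0 (by positivity)]
    have e2 : (x : ℝ) ^ ((1 - g / 2) * ((2 : ℕ) : ℝ)) = (x : ℝ) ^ (1 + δ) * (x : ℝ) ^ θ' := by
      rw [← Real.rpow_add hx0]
      congr 1
      rw [hg]
      push_cast
      ring
    rw [e2]
    have e3 : (x : ℝ) ^ (1 + δ) * (q : ℝ) ^ 2 = (x : ℝ) ^ (1 + δ) * q * q := by ring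
    rw [e3]
    exact mul_le_mul_of_nonneg_right (mul_le_mul_of_nonneg_left hqx (by positivity)) hq0.le
  have e2 : (x : ℝ) ^ δ ≤ (x : ℝ) ^ (1 - g / 2) / q := by
    rw [le_div_iff₀ hq0]
    calc (x : ℝ) ^ δ * q ≤ (x : ℝ) ^ δ * (x : ℝ) ^ θ' := mul_le_mul_of_nonneg_left hqx (by positivity)
      _ = (x : ℝ) ^ (δ + θ') := (Real.rpow_add hx0 _ _).symm
      _ ≤ (x : ℝ) ^ (1 - g / 2) := Real.rpow_le_rpow_of_exponent_le hx1 (by rw [hg]; linarith)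
  have e3 : (x : ℝ) ^ (g / 4) * ((x : ℝ) ^ (1 - g / 2) / q) = (x : ℝ) ^ (1 - g / 4) / q := by
    rw [← mul_div_assoc, ← Real.rpow_add hx0]
    congr 2
    ring
  calc dev S q a x ≤ C * ((x : ℝ) ^ (g / 4) * (√((x : ℝ) ^ (1 + δ) / q) + (x : ℝ) ^ δ)) := h2
    _ ≤ max C 0 * ((x : ℝ) ^ (g / 4) * (√((x : ℝ) ^ (1 + δ) / q) + (x : ℝ) ^ δ)) :=
        mul_le_mul_of_nonneg_right (le_max_left _ _) (by positivity)
    _ ≤ max C 0 * ((x : ℝ) ^ (g / 4) * ((x : ℝ) ^ (1 - g / 2) / q + (x : ℝ) ^ (1 - g / 2) / q)) := by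
        refine mul_le_mul_of_nonneg_left (mul_le_mul_of_nonneg_left (add_le_add e1 e2) (by positivity)) (le_max_right _ _)
    _ = 2 * max C 0 * ((x : ℝ) ^ (1 - g / 4) / q) := by
        rw [← e3]
        ring

/-- Many multiples in a block. -/
theorem many_mult (k q : ℕ) (hq : 1 ≤ q) : 2 ^ k / q ≤ ((Ico (2 ^ k) (2 ^ (k + 1))).filter (fun n => n % q = 0 % q)).card := by
  have h1 : ((range (2 ^ k / q)).image (fun i => q * ((2 ^ k - 1) / q + 1 + i))).card = 2 ^ k / q := by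
    rw [card_image_of_injective, card_range]
    intro i j hij
    have := Nat.eq_of_mul_eq_mul_left (by omega) hij
    omega
  rw [← h1]
  apply card_le_card
  intro n hn
  rw [mem_image] at hn
  obtain ⟨i, hi, rfl⟩ := hn
  rw [mem_range] at hi
  rw [mem_filter, mem_Ico]
  have hp : 1 ≤ 2 ^ k := Nat.one_le_two_pow
  have h2 : q * ((2 ^ k - 1) / q) ≤ 2 ^ k - 1 := Nat.mul_div_le _ _
  have h3 : 2 ^ k - 1 < q * ((2 ^ k - 1) / q) + q := by
    have := Nat.lt_mul_div_succ (2 ^ k - 1) (show 0 < q by omega)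
    rw [mul_add, mul_one] at this
    exact this
  have h4 : q * (1 + i) ≤ 2 ^ k := by
    calc q * (1 + i) ≤ q * (2 ^ k / q) := Nat.mul_le_mul_left _ (by omega)
      _ ≤ 2 ^ k := Nat.mul_div_le _ _
  have e1 : q * ((2 ^ k - 1) / q + 1 + i) = q * ((2 ^ k - 1) / q) + q * (1 + i) := by ring
  refine ⟨⟨?_, ?_⟩, ?_⟩
  · rw [mul_add, mul_one] at h4
    rw [e1, mul_add, mul_one]
    omega
  · rw [e1, pow_succ]
    omega
  · rw [Nat.mul_mod_right, Nat.zero_mod]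

theorem pc_ge {k n : ℕ} (hk : 2 ≤ k) (h1 : 2 ^ k ≤ n) (h2 : n < 2 ^ (k + 1)) : 1 / (((k : ℝ) + 1) * Real.log 2) ≤ pc n := by
  have h4 : 4 ≤ 2 ^ k := by
    calc 4 = 2 ^ 2 := by norm_num
      _ ≤ 2 ^ k := Nat.pow_le_pow_right (by norm_num) hk
  have hn : 3 ≤ n := by omega
  unfold pc
  rw [if_pos hn]
  have hl : 0 < Real.log n := Real.log_pos (by exact_mod_cast (show 1 < n by omega))
  refine one_div_le_one_div_of_le hl ?_
  have h5 : Real.log n ≤ Real.log ((2 : ℝ) ^ (k + 1)) := Real.log_le_log (by exact_mod_cast (show 0 < n by omega))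
    (by exact_mod_cast h2.le)
  rw [Real.log_pow] at h5
  push_cast at h5
  exact h5

theorem not_unif {S : Set ℕ} {δ θ : ℝ} (hδ : 0 < δ) (hδ1 : δ < 1) (hθ : 1 - δ < θ)
    (hS : ∀ k n : ℕ, 2 ^ k ≤ n → n < 2 ^ (k + 1) → ⌈(2 : ℝ) ^ ((1 - δ) * k)⌉₊ ∣ n → n ∉ S) : ¬ Unif S θ := by
  classical
  intro hU
  obtain ⟨θ', hθ'⟩ : ∃ θ' : ℝ, θ' = (1 - δ + θ) / 2 := ⟨_, rfl⟩
  obtain ⟨η, C, hη, h⟩ := hU θ' (by rw [hθ']; linarith) (by rw [hθ']; linarith)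
  obtain ⟨η', hη'⟩ : ∃ η' : ℝ, η' = min η 1 := ⟨_, rfl⟩
  have hη0 : 0 < η' := by rw [hη']; exact lt_min hη one_pos
  have hη1 : η' ≤ 1 := by rw [hη']; exact min_le_right _ _
  have hl : 0 < Real.log 2 := Real.log_pos (by norm_num)
  obtain ⟨g, hg⟩ : ∃ g : ℝ, g = θ' - (1 - δ) := ⟨_, rfl⟩
  have hg0 : 0 < g := by rw [hg, hθ']; linarith
  obtain ⟨K, hK⟩ : ∃ K : ℝ, K = 8 * |C| * Real.log 2 + 1 := ⟨_, rfl⟩
  have hK0 : 0 < K := by rw [hK]; positivity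
  have hev := (((Pool.Agent.Q120.CL.ev_two (2 * K) 1 hη0).and (Pool.Agent.Q120.CL.ev_two 4 1 hδ)).and
    (eventually_ge_atTop 2)).and (eventually_ge_atTop ⌈(1 + θ') / g⌉₊)
  obtain ⟨k, ⟨⟨h1, h2⟩, hk2⟩, hk3⟩ := hev.exists
  have hkR : (2 : ℝ) ≤ k := by exact_mod_cast hk2
  have hk0 : (0 : ℝ) < k := by linarith
  rw [pow_one, ← Real.rpow_natCast, ← Real.rpow_mul (by norm_num), mul_comm (k : ℝ)] at h1 h2
  obtain ⟨q, hq⟩ : ∃ q : ℕ, q = ⌈(2 : ℝ) ^ ((1 - δ) * k)⌉₊ := ⟨_, rfl⟩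
  obtain ⟨P, hP⟩ : ∃ P : ℝ, P = (2 : ℝ) ^ ((1 - δ) * k) := ⟨_, rfl⟩
  have hP1 : 1 ≤ P := by rw [hP]; exact Real.one_le_rpow (by norm_num) (mul_nonneg (by linarith) hk0.le)
  have hqP : (q : ℝ) ≤ 2 * P := by
    rw [hq, ← hP]
    have := (Nat.ceil_lt_add_one (show 0 ≤ P by linarith)).le
    linarith
  have hPq : P ≤ q := by rw [hq, ← hP]; exact Nat.le_ceil _
  have hq1 : 1 ≤ q := by
    have : (1 : ℝ) ≤ q := hP1.trans hPq
    exact_mod_cast this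
  have hq0 : (0 : ℝ) < q := by exact_mod_cast hq1
  have hp1 : 1 ≤ 2 ^ k := Nat.one_le_two_pow
  have hpk : (2 : ℝ) ^ k = (2 : ℝ) ^ (k : ℝ) := (Real.rpow_natCast 2 k).symm
  -- the moduli are admissible
  have hqle : ∀ x : ℕ, 2 ^ k ≤ 2 * x → (q : ℝ) ≤ (x : ℝ) ^ θ' := by
    intro x hx
    have hθ0 : 0 < θ' := by rw [hθ']; linarith
    have e1 : (2 : ℝ) ^ ((k : ℝ) - 1) ≤ x := by
      rw [Real.rpow_sub (by norm_num), Real.rpow_one, ← hpk, div_le_iff₀ (by norm_num)]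
      have : ((2 ^ k : ℕ) : ℝ) ≤ ((2 * x : ℕ) : ℝ) := by exact_mod_cast hx
      push_cast at this
      linarith
    have e2 : ((2 : ℝ) ^ ((k : ℝ) - 1)) ^ θ' ≤ (x : ℝ) ^ θ' := Real.rpow_le_rpow (by positivity) e1 hθ0.le
    refine hqP.trans (le_trans ?_ e2)
    rw [hP, ← Real.rpow_mul (by norm_num)]
    have e3 : (2 : ℝ) * (2 : ℝ) ^ ((1 - δ) * k) = (2 : ℝ) ^ (1 + (1 - δ) * k) := by
      rw [Real.rpow_add (by norm_num), Real.rpow_one]
    rw [e3]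
    refine Real.rpow_le_rpow_of_exponent_le (by norm_num) ?_
    have e4 : (1 + θ') / g ≤ k := (Nat.le_ceil _).trans (by exact_mod_cast hk3)
    rw [div_le_iff₀ hg0, hg] at e4
    nlinarith
  have hx1 : 2 ^ k ≤ 2 * (2 ^ (k + 1) - 1) := by rw [pow_succ]; omega
  have hx0 : 2 ^ k ≤ 2 * (2 ^ k - 1) := by
    have : 2 ≤ 2 ^ k := by
      calc 2 = 2 ^ 1 := by norm_num
        _ ≤ 2 ^ k := Nat.pow_le_pow_right (by norm_num) (by omega)
    omega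
  have a1 := h (2 ^ (k + 1) - 1) q 0 hq1 (hqle _ hx1)
  have a0 := h (2 ^ k - 1) q 0 hq1 (hqle _ hx0)
  -- the counts agree
  have hsplit : (Icc 3 (2 ^ (k + 1) - 1)).filter (fun n => n % q = 0 % q) =
      (Icc 3 (2 ^ k - 1)).filter (fun n => n % q = 0 % q) ∪ (Ico (2 ^ k) (2 ^ (k + 1))).filter (fun n => n % q = 0 % q) := by
    ext n
    rw [mem_union, mem_filter, mem_filter, mem_filter, mem_Icc, mem_Icc, mem_Ico]
    have h4 : 4 ≤ 2 ^ k := by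
      calc 4 = 2 ^ 2 := by norm_num
        _ ≤ 2 ^ k := Nat.pow_le_pow_right (by norm_num) hk2
    have h5 : 2 ^ (k + 1) = 2 * 2 ^ k := by rw [pow_succ]; ring
    constructor
    · rintro ⟨⟨b1, b2⟩, b3⟩
      rcases Nat.lt_or_ge n (2 ^ k) with b4 | b4
      · exact Or.inl ⟨⟨b1, by omega⟩, b3⟩
      · exact Or.inr ⟨⟨b4, by omega⟩, b3⟩
    · rintro (⟨⟨b1, b2⟩, b3⟩ | ⟨⟨b1, b2⟩, b3⟩)
      · exact ⟨⟨b1, by omega⟩, b3⟩
      · exact ⟨⟨by omega, by omega⟩, b3⟩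
  have hdisj : Disjoint ((Icc 3 (2 ^ k - 1)).filter (fun n => n % q = 0 % q))
      ((Ico (2 ^ k) (2 ^ (k + 1))).filter (fun n => n % q = 0 % q)) := by
    rw [disjoint_left]
    intro n b1 b2
    rw [mem_filter, mem_Icc] at b1
    rw [mem_filter, mem_Ico] at b2
    omega
  have hex : exA q 0 (2 ^ (k + 1) - 1) = exA q 0 (2 ^ k - 1) +
      ∑ n ∈ (Ico (2 ^ k) (2 ^ (k + 1))).filter (fun n => n % q = 0 % q), pc n := by
    unfold exA
    rw [hsplit, sum_union hdisj]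
  have hcnt : cntA S q 0 (2 ^ (k + 1) - 1) = cntA S q 0 (2 ^ k - 1) := by
    unfold cntA
    refine congrArg card ?_
    ext n
    rw [mem_filter, mem_filter, mem_Icc, mem_Icc]
    have h5 : 2 ^ (k + 1) = 2 * 2 ^ k := by rw [pow_succ]; ring
    constructor
    · rintro ⟨⟨b1, b2⟩, b3, b4⟩
      refine ⟨⟨b1, ?_⟩, b3, b4⟩
      by_contra b5
      refine hS k n (by omega) (by omega) ?_ b3
      rw [← hq]
      rw [Nat.zero_mod] at b4
      exact Nat.dvd_of_mod_eq_zero b4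
    · rintro ⟨⟨b1, b2⟩, b3⟩
      exact ⟨⟨b1, by omega⟩, b3⟩
  -- lower bound for the sum
  have hsum : ((2 : ℝ) ^ k / q - 1) * (1 / (((k : ℝ) + 1) * Real.log 2)) ≤
      ∑ n ∈ (Ico (2 ^ k) (2 ^ (k + 1))).filter (fun n => n % q = 0 % q), pc n := by
    have b1 : ((((Ico (2 ^ k) (2 ^ (k + 1))).filter (fun n => n % q = 0 % q)).card : ℕ) : ℝ) *
        (1 / (((k : ℝ) + 1) * Real.log 2)) ≤
        ∑ n ∈ (Ico (2 ^ k) (2 ^ (k + 1))).filter (fun n => n % q = 0 % q), pc n := by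
      rw [← nsmul_eq_mul]
      refine card_nsmul_le_sum _ _ _ (fun n hn => ?_)
      rw [mem_filter, mem_Ico] at hn
      exact pc_ge hk2 hn.1.1 hn.1.2
    refine le_trans (mul_le_mul_of_nonneg_right ?_ (by positivity)) b1
    have b2 : ((2 ^ k / q : ℕ) : ℝ) ≤ (((Ico (2 ^ k) (2 ^ (k + 1))).filter (fun n => n % q = 0 % q)).card : ℕ) := by
      exact_mod_cast many_mult k q hq1
    have b3 : (2 : ℝ) ^ k / q < ((2 ^ k / q : ℕ) : ℝ) + 1 := by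
      rw [div_lt_iff₀ hq0]
      have := Nat.lt_mul_div_succ (2 ^ k) (show 0 < q by omega)
      have b4 : ((2 ^ k : ℕ) : ℝ) < ((q * (2 ^ k / q + 1) : ℕ) : ℝ) := by exact_mod_cast this
      push_cast at b4 ⊢
      linarith
    linarith
  have hdiff : ∑ n ∈ (Ico (2 ^ k) (2 ^ (k + 1))).filter (fun n => n % q = 0 % q), pc n ≤
      dev S q 0 (2 ^ (k + 1) - 1) + dev S q 0 (2 ^ k - 1) := by
    unfold dev
    rw [hcnt, hex]
    have b1 := le_abs_self ((cntA S q 0 (2 ^ k - 1) : ℝ) - exA q 0 (2 ^ k - 1))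
    have b2 := neg_le_abs ((cntA S q 0 (2 ^ k - 1) : ℝ) - (exA q 0 (2 ^ k - 1) +
      ∑ n ∈ (Ico (2 ^ k) (2 ^ (k + 1))).filter (fun n => n % q = 0 % q), pc n))
    linarith
  -- upper bound
  have hup : ∀ x : ℕ, 1 ≤ x → x ≤ 2 ^ (k + 1) → C * ((x : ℝ) ^ (1 - η) / q) ≤
      |C| * (2 * ((2 : ℝ) ^ k / (2 : ℝ) ^ (η' * k)) / q) := by
    intro x b1 b2
    have hx1' : (1 : ℝ) ≤ x := by exact_mod_cast b1
    have b3 : (x : ℝ) ^ (1 - η) ≤ (x : ℝ) ^ (1 - η') :=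
      Real.rpow_le_rpow_of_exponent_le hx1' (by have : η' ≤ η := by rw [hη']; exact min_le_left _ _
                                                linarith)
    have b4 : (x : ℝ) ^ (1 - η') ≤ ((2 : ℝ) ^ ((k : ℝ) + 1)) ^ (1 - η') := by
      refine Real.rpow_le_rpow (by positivity) ?_ (by linarith)
      have : (x : ℝ) ≤ ((2 ^ (k + 1) : ℕ) : ℝ) := by exact_mod_cast b2
      refine this.trans (le_of_eq ?_)
      push_cast
      rw [← Real.rpow_natCast]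
      push_cast
      rfl
    have b5 : ((2 : ℝ) ^ ((k : ℝ) + 1)) ^ (1 - η') ≤ 2 * ((2 : ℝ) ^ k / (2 : ℝ) ^ (η' * k)) := by
      rw [← Real.rpow_mul (by norm_num), hpk, ← Real.rpow_sub (by norm_num)]
      have e3 : (2 : ℝ) * (2 : ℝ) ^ ((k : ℝ) - η' * k) = (2 : ℝ) ^ (1 + ((k : ℝ) - η' * k)) := by
        rw [Real.rpow_add (by norm_num), Real.rpow_one]
      rw [e3]
      refine Real.rpow_le_rpow_of_exponent_le (by norm_num) ?_
      nlinarith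
    calc C * ((x : ℝ) ^ (1 - η) / q) ≤ |C| * ((x : ℝ) ^ (1 - η) / q) :=
          mul_le_mul_of_nonneg_right (le_abs_self C) (by positivity)
      _ ≤ |C| * (2 * ((2 : ℝ) ^ k / (2 : ℝ) ^ (η' * k)) / q) :=
          mul_le_mul_of_nonneg_left (div_le_div_of_nonneg_right (b3.trans (b4.trans b5)) hq0.le) (abs_nonneg C)
  have u1 := a1.trans (hup _ (by rw [pow_succ]; omega) (Nat.sub_le _ _))
  have u0 := a0.trans (hup _ (by omega) ((Nat.sub_le _ _).trans (Nat.pow_le_pow_right (by norm_num) (by omega))))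
  have hfin := hsum.trans (hdiff.trans (add_le_add u1 u0))
  obtain ⟨E, hE⟩ : ∃ E : ℝ, E = (2 : ℝ) ^ (η' * k) := ⟨_, rfl⟩
  obtain ⟨Q, hQ⟩ : ∃ Q : ℝ, Q = (2 : ℝ) ^ k := ⟨_, rfl⟩
  have hE0 : 0 < E := by rw [hE]; positivity
  have hQ0 : 0 < Q := by rw [hQ]; positivity
  rw [← hE, ← hQ] at hfin
  have h2' : 4 * (q : ℝ) ≤ 2 * Q := by
    -- q ≤ 2 P and 4 P ≤ Q
    have b1 : P * (2 : ℝ) ^ (δ * k) = Q := by
      rw [hP, hQ, hpk, ← Real.rpow_add (by norm_num)]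
      congr 1
      ring
    have b2 : 4 * (k : ℝ) ≤ (2 : ℝ) ^ (δ * k) := h2
    have b3 : P * 4 ≤ Q := by
      rw [← b1]
      exact mul_le_mul_of_nonneg_left (by linarith) (by linarith)
    linarith
  have b1 : Q / 2 / (((k : ℝ) + 1) * Real.log 2) ≤ 4 * |C| * (Q / E) := by
    have c1 := mul_le_mul_of_nonneg_right hfin hq0.le
    have c2 : (Q / q - 1) * (1 / (((k : ℝ) + 1) * Real.log 2)) * q = (Q - q) / (((k : ℝ) + 1) * Real.log 2) := by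
      field_simp
    have c3 : (|C| * (2 * (Q / E) / q) + |C| * (2 * (Q / E) / q)) * q = 4 * |C| * (Q / E) := by
      field_simp
      ring
    rw [c2, c3] at c1
    refine le_trans (div_le_div_of_nonneg_right (by linarith) (by positivity)) c1
  have b2 : E ≤ 8 * |C| * Real.log 2 * ((k : ℝ) + 1) := by
    rw [div_div, div_le_iff₀ (by positivity)] at b1
    have c1 : 4 * |C| * (Q / E) * (2 * (((k : ℝ) + 1) * Real.log 2)) * E = Q * (8 * |C| * Real.log 2 * ((k : ℝ) + 1)) := by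
      field_simp
      ring
    have c2 := mul_le_mul_of_nonneg_right b1 hE0.le
    rw [c1] at c2
    exact le_of_mul_le_mul_left c2 hQ0
  have b3 : 8 * |C| * Real.log 2 * ((k : ℝ) + 1) < 2 * K * k := by
    have c1 : 8 * |C| * Real.log 2 = K - 1 := by rw [hK]; ring
    rw [c1]
    nlinarith
  have b4 : 2 * K * (k : ℝ) ≤ E := by rw [hE]; exact h1
  linarith

theorem not_all {δ : ℝ} {P Q : Set ℕ → Prop} (h : Pool.Agent.Q120.RZ.Some' δ P) (hPQ : ∀ S, P S → ¬ Q S) :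
    ¬ Pool.Agent.Q120.RZ.All δ Q := by
  intro h2
  obtain ⟨Ω, hΩ, μ, hμ, A, hA, ⟨C, hC⟩, h3⟩ := h
  have h4 := h2 Ω μ A hA (Pool.Agent.Q120.RZ.info_of_le hC)
  have h5 : ∀ᵐ ω ∂μ, False := by
    filter_upwards [h3, h4] with ω h6 h7
    exact hPQ _ h6 h7
  exact (Filter.eventually_false_iff_eq_bot.1 h5 ▸ (inferInstance : (ae μ).NeBot)).ne rfl

theorem unif_iff (tail : Pool.Agent.Q120.RZ.J_TAIL) (kl : Pool.Agent.Q120.RZ.J_KL) (ptm : J_PTM) (pta : J_PTA) (delm : J_DELM)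
    {δ θ : ℝ} (h0 : 0 ≤ δ) (h1 : δ < 1) (h3 : θ ≤ 1) :
    Pool.Agent.Q120.RZ.All δ (fun S => Unif S θ) ↔ θ ≤ 1 - δ := by
  constructor
  · intro h
    by_contra hcon
    rw [not_le] at hcon
    have hδ : 0 < δ := by linarith
    exact not_all (delm kl δ hδ h1) (fun S hS => not_unif hδ h1 hcon hS) h
  · intro h Ω _ μ _ A hA hI
    filter_upwards [pta tail ptm δ h0 h1 Ω μ A hA hI] with ω hω
    exact unif_of_point h0 hω h

end Pool.Agent.Q120.LD
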