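import Pool.Agent.Q120.RZ.Main
import Pool.Agent.Q58.RZ.Acl

/-!
# Project LD: the level of distribution of ALL random sets of small relative entropy

`A` is ANY random set of integers, `D_k = relEntropy μ A (low (k + 1))` the relative entropy (nats) of the law of
`A ∩ [3, 2 ^ (k + 1))` with respect to Cramér's model. `RZ.Info μ A δ`: `D_k ≤ 2 ^ ((δ + o(1)) k)`; `RZ.All δ P`: every such `A` has
almost surely the property `P`. Results for `0 ≤ δ < 1`: (1) every such `A` has almost surely the level of distribution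
`1 - δ / 2 > 1 / 2`, with a power saving: `∑_{q ≤ x ^ θ} max_a |#{n ≤ x, n ≡ a (q), n ∈ A} - ∑_{n ≤ x, n ≡ a (q)} 1 / log n| ≤ C x ^ (1 - η)`
for all `θ < 1 - δ / 2` (for `δ = 0` the Elliott–Halberstam conjecture); (2) almost surely for ALL `q ≤ x` and `a` the discrepancy
is at most `C x ^ ε ((x ^ (1 + δ) / q) ^ (1/2) + x ^ δ)`; uniform asymptotics in all progressions to moduli `q ≤ x ^ θ` hold for all
such `A` iff `θ ≤ 1 - δ`.

Each job is a definition `J_… : Prop`; a theorem `t_… : J_…` is to be proved. The proofs are complete in the docstrings.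
Proved and useful: `Q299.RZ.t_TAIL` (module `Pool.Agent.Q299.RZ.Tail`), `Q299.RZ.t_KL` (`Pool.Agent.Q299.RZ.Kl`),
`Pool.Agent.Q111.GE.{t_ENT, t_LAW, pc_nonneg, pc_le_one}`; the proof of `Pool.Agent.Q58.RZ.t_ACL` (transfer from the model to `A`,
Borel–Cantelli) is the pattern for LDA and PTA.
-/

set_option autoImplicit false

namespace Pool.Agent.Q120.LD

open Finset MeasureTheory Filter Pool.Agent.Q120.ET Pool.Agent.Q120.GM Pool.Agent.Q120.GE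
open scoped Topology

open Classical in
/-- The number of the elements `n ≡ a` modulo `q` of `S` in `[3, x]`. -/
noncomputable def cntA (S : Set ℕ) (q a x : ℕ) : ℕ := ((Icc 3 x).filter (fun n => n ∈ S ∧ n % q = a % q)).card

/-- Its expectation. -/
noncomputable def exA (q a x : ℕ) : ℝ := ∑ n ∈ (Icc 3 x).filter (fun n => n % q = a % q), pc n

/-- The discrepancy. -/
noncomputable def dev (S : Set ℕ) (q a x : ℕ) : ℝ := |(cntA S q a x : ℝ) - exA q a x|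

/-- The level of distribution `θ`, with a power saving (`a q` is any residue for each modulus, so this is the maximum). -/
def Level (S : Set ℕ) (θ : ℝ) : Prop := ∀ θ' : ℝ, θ' < θ → ∃ η C : ℝ, 0 < η ∧ ∀ (x : ℕ) (a : ℕ → ℕ), 1 ≤ x →
  ∑ q ∈ Icc 1 ⌊(x : ℝ) ^ θ'⌋₊, dev S q (a q) x ≤ C * (x : ℝ) ^ (1 - η)

/-- The pointwise bound. -/
def Point (S : Set ℕ) (δ : ℝ) : Prop := ∀ ε : ℝ, 0 < ε → ∃ C : ℝ, ∀ x q a : ℕ, 1 ≤ q → q ≤ x →
  dev S q a x ≤ C * ((x : ℝ) ^ ε * (√((x : ℝ) ^ (1 + δ) / q) + (x : ℝ) ^ δ))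

open Classical in
/-- **Job HOE.** Hoeffding's inequality in a model with independent elements.
Proof. For `l : ℝ`, `0 ≤ p ≤ 1`: `(1 - p) exp (-l p) + p exp (l (1 - p)) ≤ exp (l ^ 2 / 8) ≤ exp (l ^ 2 / 2)` (Hoeffding's lemma,
e.g. `ProbabilityTheory.hasSubgaussianMGF_of_mem_Icc`; or elementary with `exp (l ^ 2 / 2)`). Exponential moment of the sum by
independence (`Q112.LE.Expo`, or `iIndepFun`, or induction on `I` with `indep_real`), Markov with `l = s / V`. -/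
def J_HOE : Prop := ∀ (Ω : Type) [MeasurableSpace Ω] (μ : Measure Ω) [IsProbabilityMeasure μ] (p : ℕ → ℝ) (A : Ω → Set ℕ),
  IsModel μ p A → ∀ (I : Finset ℕ) (c : ℕ → ℝ) (V s : ℝ), ∑ n ∈ I, c n ^ 2 ≤ V → 0 < V → 0 < s →
    μ.real {ω | s ≤ ∑ n ∈ I, c n * ((if n ∈ A ω then 1 else 0) - p n)} ≤ Real.exp (-(s ^ 2 / (2 * V)))

/-- **Job TOP.** The `M` largest values. Proof. Induction on `I.card - M`: remove the least value. -/
def J_TOP : Prop := ∀ (I : Finset ℕ) (f : ℕ → ℝ) (M : ℕ), (∀ i ∈ I, 0 ≤ f i) → M ≤ I.card →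
  ∃ J ⊆ I, J.card = M ∧ (M : ℝ) * ∑ i ∈ I, f i ≤ I.card * ∑ i ∈ J, f i

/-- **Job GCDS.** Sums of greatest common divisors.
Proof. For `q < 2 Q`: `∑_{q' ∈ [Q, 2Q)} gcd q q' ≤ ∑_{d ∣ q} d * #{q' ∈ [Q, 2 Q) : d ∣ q'} ≤ ∑_{d ∣ q} d (Q / d + 1) ≤ 3 Q * #divisors q`, and the
divisor bound `#divisors q ≤ C q ^ ε` (in Mathlib or the pool library, or the usual proof). -/
def J_GCDS : Prop := ∀ ε : ℝ, 0 < ε → ∃ C : ℝ, 0 < C ∧ ∀ (Q : ℕ) (J : Finset ℕ), 1 ≤ Q → J ⊆ Ico Q (2 * Q) →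
  ∑ q ∈ J, ∑ q' ∈ J, (Nat.gcd q q' : ℝ) ≤ C * J.card * (Q : ℝ) ^ (1 + ε)

open Classical in
/-- **Job SEC** (uses GCDS). The second moment.
Proof. Expand the square: `∑_{q, q' ∈ J} |s q s q'| #{n ∈ [3, x] : n ≡ a q (q), n ≡ a q' (q')}`; such `n` form at most one class modulo
`lcm q q'`, so there are at most `x / lcm q q' + 1`, and `1 / lcm q q' = gcd q q' / (q q') ≤ gcd q q' / Q ^ 2`. -/
def J_SEC : Prop := J_GCDS → ∀ ε : ℝ, 0 < ε → ∃ C : ℝ, 0 < C ∧ ∀ (Q x : ℕ) (J : Finset ℕ) (a : ℕ → ℕ) (s : ℕ → ℝ), 1 ≤ Q →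
  J ⊆ Ico Q (2 * Q) → (∀ q, |s q| ≤ 1) →
    ∑ n ∈ Icc 3 x, (∑ q ∈ J.filter (fun q => n % q = a q % q), s q) ^ 2 ≤ (J.card : ℝ) ^ 2 + C * x * J.card * (Q : ℝ) ^ ε / Q

/-- **Job LDM** (uses HOE, TOP, GCDS, SEC). The level of distribution in the model.
Proof. `β = min (2 - 2 θ - δ) (min (1 - δ) (1 - θ)) / 20 > 0` (`1 - θ > 0` as `2 - 2 θ > δ ≥ 0`), `η = β`, `μ' = max 0 (δ + θ - 1) + 7 β`. Let
`x ∈ [2 ^ k, 2 ^ (k + 1))` and `a` be as in the event. For one of the at most `k + 2` numbers `Q = 2 ^ j ≤ x ^ θ` the part of the sum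
over `I = [Q, 2 Q) ∩ [1, x ^ θ]` is at least `x ^ (1 - β) / (k + 2) ≥ x ^ (1 - 2 β)`. Let `M = min |I| ⌈x ^ μ'⌉`, `J ⊆ I` from TOP,
`|J| = M`, so `∑_{q ∈ J} dev ≥ s := (M / |I|) x ^ (1 - 2 β)`. With signs `s_q = ± 1` this sum is `∑_{n ∈ [3, x]} c n (1_A n - pc n)`,
`c n = ∑_{q ∈ J, n ≡ a q (q)} s_q`. SEC with `ε = β`: `∑ c n ^ 2 ≤ V := M ^ 2 + C x ^ (1 + β) M / Q`. HOE: probability at most
`exp (-s ^ 2 / (2 V))`, and `s ^ 2 / (2 V) ≥ (1/4) min (s ^ 2 / M ^ 2) (s ^ 2 Q / (C M x ^ (1 + β)))`. As `|I| ≤ Q ≤ x ^ θ`: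
`s ^ 2 / M ^ 2 ≥ x ^ (2 - 2 θ - 4 β)`, and `s ^ 2 Q / (M x ^ (1 + β)) ≥ (M / |I|) x ^ (1 - 5 β) ≥ x ^ (1 - 5 β)` if `M = |I|`, and
`≥ x ^ (μ' + 1 - θ - 5 β)` otherwise. All exponents are at least `max (δ + 2 β) (μ' + 2 β)` (check: `2 - 2 θ ≥ δ + 20 β`,
`1 ≥ δ + 20 β`, `1 - θ ≥ 20 β`; `μ' + 6 β ≤ 2 - 2 θ` in both cases of the maximum because `δ ≤ 2 - 2 θ - 20 β ≤ 3 - 3 θ - 13 β`).
The number of `(x, j, J, (a q mod q)_q, (s_q)_q)` is at most `2 ^ k (k + 2) (8 Q ^ 2) ^ M ≤ exp (10 (k + 2) x ^ μ' + …)`. Together at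
most `exp (-2 ^ ((δ + β) k))` for large `k`. -/
def J_LDM : Prop := J_HOE → J_TOP → J_GCDS → J_SEC → ∀ δ θ : ℝ, 0 ≤ δ → δ < 1 → 0 < θ → θ < 1 - δ / 2 → ∃ η : ℝ, 0 < η ∧
  ∀ᶠ k : ℕ in atTop, ∀ (Ω : Type) [MeasurableSpace Ω] (μ : Measure Ω) [IsProbabilityMeasure μ] (A : Ω → Set ℕ), IsModel μ pc A →
    μ.real {ω | ∃ (x : ℕ) (a : ℕ → ℕ), 2 ^ k ≤ x ∧ x < 2 ^ (k + 1) ∧
      (x : ℝ) ^ (1 - η) ≤ ∑ q ∈ Icc 1 ⌊(x : ℝ) ^ θ⌋₊, dev (A ω) q (a q) x} ≤ Real.exp (-(2 : ℝ) ^ ((δ + η) * k))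

/-- **Job LDA** (uses HOE, TOP, GCDS, SEC, LDM). The level of distribution of all random sets of the class.
Proof. As `t_ACL`: for each `θ = 1 - δ / 2 - 1 / (j + j₀)` the event of LDM only depends on `tr A (low (k + 1)) ω`; by `t_ENT` (with
`t_LAW`) it has probability at most `(1 + 2 ^ ((δ + η / 2) k)) / 2 ^ ((δ + η) k)` for large `k`, summable; `GM.bc`. For the finitely
many small `x` (and `x ^ θ' ` for `θ' ≤ 0`, monotonicity in `θ'`) adjust `C`: the sum is at most `2 x * x`. -/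
def J_LDA : Prop := J_HOE → J_TOP → J_GCDS → J_SEC → J_LDM → ∀ δ : ℝ, 0 ≤ δ → δ < 1 →
  Pool.Agent.Q120.RZ.All δ (fun S => Level S (1 - δ / 2))

/-- **Job PTM** (uses RZ.TAIL). The pointwise bound in the model.
Proof. `cntA (A ω) q a x = num' (A ω) I`, `exA q a x = ∑ n ∈ I, pc n ≤ V := x / q + 1 ≤ 2 x / q`, `I` the class in `[3, x]`. TAIL with
`t = x ^ ε (√(x ^ (1 + δ) / q) + x ^ δ)`: if `t ≤ V` the exponent is at least `t ^ 2 / (8 V) ≥ x ^ (2 ε + δ) / 16`, if `t > V` at least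
`t / 8 ≥ x ^ (ε + δ) / 8`; (the case `ε' = ε / 2` gives the room for the constants:) so at most `2 exp (-x ^ (ε + δ) / 16)`. Union
over the at most `2 ^ (3 k + 3)` triples `(x, q, a mod q)`. To have `exp (-2 ^ ((δ + ε / 2) k))` for large `k`. -/
def J_PTM : Prop := Pool.Agent.Q120.RZ.J_TAIL → ∀ δ ε : ℝ, 0 ≤ δ → δ < 1 → 0 < ε → ∀ᶠ k : ℕ in atTop, ∀ (Ω : Type) [MeasurableSpace Ω]
  (μ : Measure Ω) [IsProbabilityMeasure μ] (A : Ω → Set ℕ), IsModel μ pc A →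
    μ.real {ω | ∃ x q a : ℕ, 2 ^ k ≤ x ∧ x < 2 ^ (k + 1) ∧ 1 ≤ q ∧ q ≤ x ∧
      (x : ℝ) ^ ε * (√((x : ℝ) ^ (1 + δ) / q) + (x : ℝ) ^ δ) ≤ dev (A ω) q a x} ≤ Real.exp (-(2 : ℝ) ^ ((δ + ε / 2) * k))

/-- **Job PTA** (uses RZ.TAIL, PTM). The pointwise bound for all random sets of the class.
Proof. As LDA / `t_ACL`, for `ε = 1 / (j + 1)`; `Info` with `ε / 4`. For the finitely many small `x` adjust `C` (`dev ≤ 2 x`, and the right
side without `C` is at least `1` for `x ≥ 1`). -/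
def J_PTA : Prop := Pool.Agent.Q120.RZ.J_TAIL → J_PTM → ∀ δ : ℝ, 0 ≤ δ → δ < 1 → Pool.Agent.Q120.RZ.All δ (fun S => Point S δ)

/-- **Job DELM** (uses RZ.KL). Empty progressions.
Proof. Let `W` be the set of the `n` with `⌈2 ^ ((1 - δ) k)⌉ ∣ n`, where `2 ^ k ≤ n < 2 ^ (k + 1)`, `d = 1_W`; there is a model `A` with the
probabilities `(1 - d n) * pc n` (`GM.isModel`, `prodMeasure`); almost surely `A ω` contains no `n` of probability `0` (countably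
many). By KL the relative entropy on `low (k + 1)` is at most `12 ∑_{n ∈ W ∩ low (k + 1)} pc n ≤ 12 ∑_{j ≤ k} (2 ^ j / 2 ^ ((1 - δ) j) + 1) ≤ C 2 ^ (δ k)`
(`δ > 0`). -/
def J_DELM : Prop := Pool.Agent.Q120.RZ.J_KL → ∀ δ : ℝ, 0 < δ → δ < 1 → Pool.Agent.Q120.RZ.Some' δ (fun S =>
  ∀ k n : ℕ, 2 ^ k ≤ n → n < 2 ^ (k + 1) → ⌈(2 : ℝ) ^ ((1 - δ) * k)⌉₊ ∣ n → n ∉ S)

end Pool.Agent.Q120.LD
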